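import Pool.Agent.W808.KS.Stm
import Pool.Agent.H988R2.Perc.T10
import Pool.Agent.H988R2.Perc.T13

/-!
# Legs at the tip of a slit: base cases of the formula (general form)
-/

set_option autoImplicit false

namespace Pool.Agent.W131.KS
open Pool.Agent.W808 Pool.Agent.W808.KS
open Pool.Agent.H863R2.Cyl
open Pool.Agent.H988R2.Perc (Word PD Dyck LP Fw rainbow firstArc rem mem_LP)
open Pool.Agent.H988R2.Perc.T10 (pairs fA fB)
open Pool.Agent.H160R2.ML (pfq Gn)
open Pool.Agent.W808.HB (bwm prs Xf Yf vdx wdx bet xY)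

theorem length_prs (l : List ℂ) : (prs l).length = 2 * l.length := by
  unfold prs
  induction l with
  | nil => rfl
  | cons a l ih => rw [List.flatMap_cons, List.length_append, ih]; simp; ring

theorem lc_congr (f g : Word → ℂ) (N : ℕ) (v : VW) (hv : v ∈ VN N)
    (h : ∀ u : Word, u.length = N → Ok u → f u = g u) :
    Finsupp.linearCombination ℂ f v = Finsupp.linearCombination ℂ g v := by
  rw [Finsupp.linearCombination_apply, Finsupp.linearCombination_apply]
  unfold Finsupp.sum
  refine Finset.sum_congr rfl fun u hu => ?_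
  have h1 := (Finsupp.mem_supported ℂ v).1 hv hu
  beta_reduce
  rw [h u h1.1 h1.2]

theorem B0 (hE : HB.S_E) (hM0 : HB.S_M0) (hM2 : HB.S_M2) (hTT : S_TT) (hZS : S_ZS)
    (hGt : S_Gt) : S_B0 := by
  intro Ψ hF ε M y hε hG
  have hD : HB.Dat q HB.el Ψ := ⟨Pool.Agent.H988R2.Perc.q_spec, hE, hF⟩
  have hlen : (prs (List.ofFn (sq y))).length = 2 * M := by
    rw [length_prs, List.length_ofFn]
  have hsl : (symA ε []).length = ε := by simp [symA]
  have hmem : Ψ (symA ε [] ++ prs (List.ofFn (sq y))) ∈ VN (ε + 2 * M) := by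
    have h := hF.mem (symA ε [] ++ prs (List.ofFn (sq y)))
    rw [List.length_append, hsl, hlen] at h
    exact h
  have hHH : HH Ψ (symA ε []) [] [] (prs (List.ofFn (sq y))) =
      Zs (prs (List.ofFn (sq y))) * tot (Ψ (symA ε [] ++ prs (List.ofFn (sq y)))) := by
    unfold HH HV Zs
    rw [Finset.sum_mul]
    have e1 : ([] : List ℂ).length + (prs (List.ofFn (sq y))).length + ([] : List ℂ).length =
        (prs (List.ofFn (sq y))).length := by simp
    rw [e1]
    refine Finset.sum_congr rfl fun w hw => ?_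
    have hw1 := mem_LP.1 hw
    have e2 : ([] : List ℂ) ++ prs (List.ofFn (sq y)) ++ ([] : List ℂ) =
        prs (List.ofFn (sq y)) := by simp
    rw [e2]
    congr 1
    unfold es tot
    refine lc_congr _ _ _ _ hmem fun u hu1 hu2 => ?_
    have h3 : Gs 0 0 ε w u := hGt ε w u hw1.2 hu2 hε (by rw [hu1, hw1.1, hlen])
    have h4 : Gs ([] : List ℂ).length ([] : List ℂ).length (symA ε []).length w u := by
      rw [hsl]; exact h3
    rw [if_pos h4]
  obtain ⟨t1, t2, t3⟩ := hTT M y hG
  have hZ := hZS M (sq y) hG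
  have hkey : tot (Ψ (symA ε [] ++ prs (List.ofFn (sq y)))) * vdx (sq y) ^ 2 =
      wdx (sq y) * HB.TT q (List.replicate ε 1) (sq y) := by
    have hε' : ε = 0 ∨ ε = 1 := by omega
    rcases hε' with rfl | rfl
    · have h := hM0 q HB.el Ψ hD M (sq y) hG
      have h5 : HB.GG HB.el Ψ [] (prs (List.ofFn (sq y))) =
          tot (Ψ (symA 0 [] ++ prs (List.ofFn (sq y)))) := by
        unfold HB.GG tot
        refine lc_congr _ _ (0 + 2 * M) _ hmem fun u hu1 hu2 => ?_
        exact hE.tot0 M u hu2 (by omega)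
      rw [h5] at h
      exact h
    · have h := hM2 q HB.el Ψ hD 1 M le_rfl [1] (sq y) rfl hG
      have h5 : HB.GG HB.el Ψ [1] (prs (List.ofFn (sq y))) =
          tot (Ψ (symA 1 [] ++ prs (List.ofFn (sq y)))) := by
        unfold HB.GG tot
        refine lc_congr _ _ (1 + 2 * M) _ hmem fun u hu1 hu2 => ?_
        exact hE.tot1 M u hu2 (by omega)
      rw [h5] at h
      have h6 : HB.kap q 1 = 1 := by
        unfold HB.kap
        rw [if_neg (by decide)]
        simp
      have h7 : pfq q [1] = 1 := by simp [pfq]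
      rw [h6, h7, mul_one, one_mul] at h
      exact h
  have hε' : ε = 0 ∨ ε = 1 := by omega
  have hprod : HH Ψ (symA ε []) [] [] (prs (List.ofFn (sq y))) * vdx (sq y) ^ 4 =
      ((q - 1) ^ M * q ^ M ^ 2 * wdx (sq y) * KC.TT [] (sq y)) *
        (wdx (sq y) * HB.TT q (List.replicate ε 1) (sq y)) := by
    rw [← hkey, ← hZ, hHH]
    ring
  rw [hprod]
  rcases hε' with rfl | rfl
  · have e3 : HB.TT q (List.replicate 0 1) (sq y) = (-q) ^ M * DT (g2 0) [] y := t1
    rw [e3, t2]
    unfold Rf KS.kap
    simp only [List.length_nil, symA, List.replicate_zero, pfq, rv, List.map_nil,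
      List.reverse_nil, pairs, List.append_nil, mul_zero, add_zero, pow_zero, inv_one, mul_one,
      Nat.sub_zero]
    rw [neg_pow, show M * (M + 1) = M ^ 2 + M by ring, pow_add]
    ring
  · have e3 : HB.TT q (List.replicate 1 1) (sq y) * KC.TT [] (sq y) =
        DT (g1 1) [] y * DT (g2 1) [] y := t3
    have e4 : ((q - 1) ^ M * q ^ M ^ 2 * wdx (sq y) * KC.TT [] (sq y)) *
        (wdx (sq y) * HB.TT q (List.replicate 1 1) (sq y)) =
        (q - 1) ^ M * q ^ M ^ 2 * wdx (sq y) ^ 2 *
          (HB.TT q (List.replicate 1 1) (sq y) * KC.TT [] (sq y)) := by ring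
    rw [e4, e3]
    unfold Rf KS.kap
    have e5 : pfq q (symA 1 []) = 1 := by simp [symA, pfq]
    rw [e5]
    simp only [List.length_nil, rv, List.map_nil,
      List.reverse_nil, pairs, List.append_nil, mul_zero, add_zero, pow_zero, inv_one, mul_one,
      Nat.sub_self, one_mul, Nat.add_sub_cancel]
    rw [show M * M = M ^ 2 by ring]
    ring

/-! ### no other strands -/

theorem Fw_rainbow (n : ℕ) (l : List ℂ) (hl : l.length = 2 * n) :
    Fw (rainbow n) l = Pool.Agent.H988R2.Perc.base n l := by
  have hd := Pool.Agent.H988R2.Perc.base_dual n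
  have hlen : (rainbow n).length = 2 * n := Pool.Agent.H988R2.Perc.length_rainbow n
  have hdy : Dyck (rainbow n) := Pool.Agent.H988R2.Perc.dyck_rainbow n
  have hmem : rainbow n ∈ LP (2 * n) := mem_LP.2 ⟨hlen, hdy⟩
  rw [Pool.Agent.H988R2.Perc.V_expand (Pool.Agent.H988R2.Perc.base_V n) l hl]
  have h1 : ∀ w ∈ LP (2 * n), Pool.Agent.H988R2.Perc.ev n w (Pool.Agent.H988R2.Perc.base n) * Fw w l =
      if w = rainbow n then Fw w l else 0 := by
    intro w hw
    have hw1 := mem_LP.1 hw
    have h2 := hd.2.2.2 w hw1.2 (by rw [hw1.1, hlen])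
    have hn : (rainbow n).length / 2 = n := by omega
    rw [hn] at h2
    rw [h2]
    split_ifs
    · rw [one_mul]
    · rw [zero_mul]
  rw [Finset.sum_congr rfl h1, Finset.sum_ite_eq', if_pos hmem]

theorem length_symA (ε : ℕ) (A : List ℂ) : (symA ε A).length = 2 * A.length + ε := by
  induction A with
  | nil => simp [symA]
  | cons a A ih =>
    simp only [symA, List.length_append, List.length_cons, List.length_nil, ih]
    ring

theorem length_rv (B : List ℂ) : (rv B).length = B.length := by
  unfold rv; simp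

theorem symA_perm (ε : ℕ) (A : List ℂ) : (symA ε A).Perm (prs A ++ List.replicate ε 1) := by
  induction A with
  | nil => exact List.Perm.refl _
  | cons a A ih =>
    have h1 : (symA ε (a :: A)).Perm (a :: a⁻¹ :: symA ε A) := by
      change (a⁻¹ :: symA ε A ++ [a]).Perm _
      exact (List.perm_append_singleton a (a⁻¹ :: symA ε A))
    refine h1.trans ?_
    change (a :: a⁻¹ :: symA ε A).Perm (a :: a⁻¹ :: (prs A ++ List.replicate ε 1))
    exact (ih.cons _).cons _

theorem Gn_perm {l l' : List ℂ} (h : l.Perm l') (hl : Gn l) : Gn l' :=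
  ⟨fun x hx => hl.1 x (h.mem_iff.2 hx), (h.map _).nodup_iff.1 hl.2⟩

theorem prs_append (l l' : List ℂ) : prs (l ++ l') = prs l ++ prs l' := by
  unfold prs
  rw [List.flatMap_append]

theorem mem_prs {A : List ℂ} {b : ℂ} (hb : b ∈ prs A) : ∃ a ∈ A, b = a ∨ b = a⁻¹ := by
  unfold prs at hb
  rw [List.mem_flatMap] at hb
  obtain ⟨a, ha, h⟩ := hb
  refine ⟨a, ha, ?_⟩
  simpa using h

theorem cube_ne_one {A : List ℂ} (h : Gn (prs A)) {a : ℂ} (ha : a ∈ A) : a ^ 3 ≠ 1 := by
  intro h1
  induction A with
  | nil => simp at ha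
  | cons c A ih =>
    have h2 : prs (c :: A) = c :: c⁻¹ :: prs A := rfl
    rw [h2] at h
    rcases List.mem_cons.1 ha with h3 | h3
    · subst h3
      have h4 := h.2
      rw [List.map_cons, List.nodup_cons] at h4
      apply h4.1
      rw [List.map_cons, inv_pow, h1, inv_one]
      exact List.mem_cons_self
    · refine ih ⟨fun x hx => h.1 x (List.mem_cons_of_mem _ (List.mem_cons_of_mem _ hx)), ?_⟩ h3
      have h4 := h.2
      rw [List.map_cons, List.nodup_cons, List.map_cons, List.nodup_cons] at h4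
      exact h4.2.2

theorem Gn_symA {ε : ℕ} {A : List ℂ} (hε : ε ≤ 1) (h : Gn (prs A)) : Gn (symA ε A) := by
  refine Gn_perm (symA_perm ε A).symm ?_
  have hε' : ε = 0 ∨ ε = 1 := by omega
  rcases hε' with rfl | rfl
  · simpa using h
  · have h1 : (List.replicate 1 (1 : ℂ)) = [1] := rfl
    rw [h1]
    refine Gn_perm (List.perm_append_singleton (1 : ℂ) (prs A)).symm ?_
    refine ⟨?_, ?_⟩
    · intro x hx
      rcases List.mem_cons.1 hx with h2 | h2
      · rw [h2]; exact one_ne_zero
      · exact h.1 x h2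
    · rw [List.map_cons, List.nodup_cons]
      refine ⟨?_, h.2⟩
      intro h2
      rw [List.mem_map] at h2
      obtain ⟨b, hb, h3⟩ := h2
      obtain ⟨a, ha, h4⟩ := mem_prs hb
      apply cube_ne_one h ha
      rcases h4 with rfl | rfl
      · rw [h3]; norm_num
      · rw [inv_pow] at h3
        have h5 : (a ^ 3)⁻¹ = 1 := by rw [h3]; norm_num
        exact inv_eq_one.1 h5

theorem B1 (hc : HB.S_comp) (hG0 : S_G0) : S_B1 := by
  intro Ψ hF ε A B y hε hG
  have hGA : Gn (prs A) := by
    rw [prs_append] at hG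
    refine ⟨fun x hx => hG.1 x (List.mem_append_left _ hx), ?_⟩
    have := hG.2
    rw [List.map_append] at this
    exact this.of_append_left
  have hGs := Gn_symA hε hGA
  have hlB : (rv B).length = B.length := length_rv B
  have hmem : Ψ (symA ε A) ∈ VN (symA ε A).length := hF.mem _
  have hes : ∀ w ∈ LP (2 * B.length),
      es B.length (rv B).length (symA ε A).length w (Ψ (symA ε A)) =
        if w = rainbow B.length then Ψ (symA ε A) (bwm (symA ε A).length) else 0 := by
    intro w hw
    have hw1 := mem_LP.1 hw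
    unfold es
    rw [hlB]
    rw [lc_congr _ (fun u => if w = rainbow B.length ∧ u = bwm (symA ε A).length then (1 : ℂ)
      else 0) _ _ hmem ?_]
    · rw [Finsupp.linearCombination_apply]
      unfold Finsupp.sum
      by_cases h : w = rainbow B.length
      · rw [if_pos h]
        rw [Finset.sum_eq_single (bwm (symA ε A).length)]
        · beta_reduce
          rw [if_pos ⟨h, rfl⟩, smul_eq_mul, mul_one]
        · intro u _ hu
          beta_reduce
          rw [if_neg (fun h' => hu h'.2), smul_zero]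
        · intro h2
          beta_reduce
          rw [Finsupp.notMem_support_iff.1 h2, zero_smul]
      · rw [if_neg h]
        refine Finset.sum_eq_zero fun u _ => ?_
        beta_reduce
        rw [if_neg (fun h' => h h'.1), smul_zero]
    · intro u hu1 hu2
      have h1 := hG0 B.length B.length (symA ε A).length w u hw1.2 hu2 (by rw [hw1.1]; ring) hu1
      by_cases h2 : Gs B.length B.length (symA ε A).length w u
      · rw [if_pos h2, if_pos (h1.1 h2).2]
      · rw [if_neg h2, if_neg (fun h3 => h2 (h1.2 ⟨rfl, h3⟩))]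
  have hHH : HH Ψ (symA ε A) B (rv B) [] =
      pairs fA B * pairs fB (rv B) * Ψ (symA ε A) (bwm (symA ε A).length) := by
    unfold HH HV
    have e1 : B.length + ([] : List ℂ).length + (rv B).length = 2 * B.length := by
      rw [hlB, List.length_nil]; ring
    rw [e1, List.append_nil, List.append_nil]
    have h1 : ∀ w ∈ LP (2 * B.length), Fw w (B ++ rv B) *
        es B.length (rv B).length (symA ε A).length w (Ψ (symA ε A)) =
        if w = rainbow B.length then
          Fw w (B ++ rv B) * Ψ (symA ε A) (bwm (symA ε A).length) else 0 := by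
      intro w hw
      rw [hes w hw]
      split_ifs
      · rfl
      · rw [mul_zero]
    have hmr : rainbow B.length ∈ LP (2 * B.length) :=
      mem_LP.2 ⟨Pool.Agent.H988R2.Perc.length_rainbow _, Pool.Agent.H988R2.Perc.dyck_rainbow _⟩
    rw [Finset.sum_congr rfl h1, Finset.sum_ite_eq', if_pos hmr,
      Fw_rainbow B.length (B ++ rv B) (by rw [List.length_append, hlB]; ring),
      Pool.Agent.H988R2.Perc.T10.base_append B.length B (rv B) rfl hlB]
  rw [hHH]
  have hcc := hc q Ψ Pool.Agent.H988R2.Perc.q_spec hF (symA ε A) hGs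
  have hq1 : (q - 1) ≠ 0 := sub_ne_zero.2 Pool.Agent.H988R2.Perc.q_ne_one
  have hkap : HB.kap q (symA ε A).length = (-1) ^ (A.length * ε) * (q - 1) ^ A.length := by
    rw [length_symA]
    unfold HB.kap
    have hε' : ε = 0 ∨ ε = 1 := by omega
    rcases hε' with rfl | rfl
    · rw [if_pos (by simp)]
      have : (2 * A.length + 0) / 2 = A.length := by omega
      rw [this]; simp
    · rw [if_neg (by simp)]
      have : (2 * A.length + 1) / 2 = A.length := by omega
      rw [this, mul_one, ← mul_pow]
      congr 1; ring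
  rw [hkap] at hcc
  have hval : Ψ (symA ε A) (bwm (symA ε A).length) =
      (-1) ^ (A.length * ε) * ((q - 1) ^ A.length)⁻¹ * pfq q (symA ε A) := by
    rw [← hcc]
    have h1 : ((-1 : ℂ) ^ (A.length * ε)) * (-1) ^ (A.length * ε) = 1 := by
      rw [← mul_pow]; norm_num
    have h2 : ((q - 1) ^ A.length)⁻¹ * (q - 1) ^ A.length = 1 :=
      inv_mul_cancel₀ (pow_ne_zero _ hq1)
    linear_combination (-(Ψ (symA ε A) (bwm (symA ε A).length)) *
      ((q - 1) ^ A.length)⁻¹ * (q - 1) ^ A.length) * h1 -
      (Ψ (symA ε A) (bwm (symA ε A).length)) * h2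
  rw [hval]
  unfold Rf KS.kap
  have e1 : ∀ g : ℂ → ℂ, DT g (A ++ B) y = 1 := by
    intro g
    unfold DT
    exact Matrix.det_isEmpty
  have e2 : wdx (sq y) = 1 := by
    unfold wdx
    simp
  rw [e1, e1, e2]
  simp only [zero_mul, zero_add, pow_zero, one_mul, mul_one, one_pow]
  ring

end Pool.Agent.W131.KS
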